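import Pool.Agent.helper57.DH.SpecL

/-!
# Row LOB of project d2: functions with vanishing moments composed with near-identity maps (helper51)
-/

set_option autoImplicit false

open Filter Topology MeasureTheory
open scoped commutatorElement

namespace Pool.Agent.helper90.DH

open Pool.Agent.helper64.D2

/-- the number of the cell. -/
theorem LOB_ci (s : ℕ) (k : ℤ) (x : ℝ) (hx : x ∈ cell s k) : ci s x = k := by
  unfold ci
  rw [Int.floor_eq_iff]
  have h2 : (0 : ℝ) < 2 ^ s := by positivity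
  have h3 : (k : ℝ) / 2 ^ s ≤ x := hx.1
  have h4 : x < ((k : ℝ) + 1) / 2 ^ s := hx.2
  rw [div_le_iff₀ h2] at h3
  rw [lt_div_iff₀ h2] at h4
  constructor
  · linarith
  · linarith

/-- distance from the left end of the cell. -/
theorem LOB_left (s : ℕ) (x : ℝ) : |x - (ci s x : ℝ) / 2 ^ s| ≤ 1 / 2 ^ s := by
  have h2 : (0 : ℝ) < 2 ^ s := by positivity
  have h3 : (ci s x : ℝ) ≤ 2 ^ s * x := Int.floor_le _
  have h4 : 2 ^ s * x < (ci s x : ℝ) + 1 := Int.lt_floor_add_one _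
  have h5 : x - (ci s x : ℝ) / 2 ^ s = (2 ^ s * x - ci s x) / 2 ^ s := by field_simp
  rw [h5, abs_of_nonneg (div_nonneg (by linarith) h2.le)]
  exact div_le_div_of_nonneg_right (by linarith) h2.le

/-- products with bounded measurable functions. -/
theorem LOB_mul (j f : ℝ → ℝ) (C : ℝ) (hj : Measurable j) (hC : ∀ x, |j x| ≤ C) (hf : BM f) : BM (fun x => j x * f x) := by
  obtain ⟨h1, ⟨B, hB⟩, h3⟩ := hf
  refine ⟨hj.mul h1, ⟨C * B, fun x => ?_⟩, fun x hx => ?_⟩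
  · rw [abs_mul]
    have hC0 : 0 ≤ C := (abs_nonneg _).trans (hC x)
    exact mul_le_mul (hC x) (hB x) (abs_nonneg _) hC0
  · show j x * f x = 0
    rw [h3 x hx, mul_zero]

/-- the row LOB. -/
theorem LOB (hLOA : LOA_stmt) (hLBM : LBM_stmt) (hLCS : LCS_stmt) (hLEA : LEA_stmt) (hLEP : LEP_stmt) (hLCV : LCV_stmt) : LOB_stmt := by
  obtain ⟨K, hK, hOA⟩ := hLOA
  refine ⟨4 * K + 2, by linarith, ?_⟩
  intro c f s r hc hf hEf hrs
  obtain ⟨hL1, hL2, hL3, hL4, hL5, -⟩ := hLBM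
  obtain ⟨hC1, hC2, -, hC4, hC5⟩ := hLCS
  obtain ⟨-, hA2, hA3, -⟩ := hLEA
  obtain ⟨hP1, hP2, -⟩ := hLEP
  obtain ⟨-, hV2, hV3, hV4, hV5, -⟩ := hLCV
  have hc' : Sz c (1 / 50) := fun x => (hc x).trans (by norm_num)
  have hci : Sz c⁻¹ (1 / 50) := hV2 c hc
  have hn0 : ∀ u : ℝ → ℝ, 0 ≤ nsq u := fun u => integral_nonneg (fun x => sq_nonneg _)
  obtain ⟨g, hg⟩ : ∃ g, g = Es r (fun z => f (ev c z)) := ⟨_, rfl⟩
  have hh : BM (fun z => f (ev c z)) := hL5 c f hf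
  have hgB : BM g := by rw [hg]; exact (hL4 r _ hh).1
  have hgP : PA r g := by rw [hg]; exact hA2 r _
  rw [← hg]
  obtain ⟨k, hk⟩ : ∃ k : ℝ → ℝ, k = fun z => g (ev c⁻¹ z) := ⟨_, rfl⟩
  have hkB : BM k := by rw [hk]; exact hL5 c⁻¹ g hgB
  obtain ⟨ek, hek⟩ : ∃ ek, ek = Es s k := ⟨_, rfl⟩
  have hekB : BM ek := by rw [hek]; exact (hL4 s _ hkB).1
  have hekP : PA s ek := by rw [hek]; exact hA2 s _
  obtain ⟨J, hJ⟩ : ∃ J, J = deriv (ev c⁻¹) := ⟨_, rfl⟩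
  have hJc : Continuous J := by rw [hJ]; exact (ev_contDiff c⁻¹).continuous_deriv (by norm_num)
  obtain ⟨hJb, hJl⟩ := hV3 c hc'
  rw [← hJ] at hJb hJl
  have hJa : ∀ x, |J x| ≤ 51 / 49 := by
    intro x
    rw [abs_of_nonneg (by linarith [(hJb x).1])]
    exact (hJb x).2
  -- the functions
  obtain ⟨l, hl⟩ : ∃ l : ℝ → ℝ, l = fun z => J ((ci s z : ℝ) / 2 ^ s) * ek z := ⟨_, rfl⟩
  have hlP : PA s l := by
    intro k0
    obtain ⟨a, b, hab⟩ := hekP k0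
    refine ⟨J ((k0 : ℝ) / 2 ^ s) * a, J ((k0 : ℝ) / 2 ^ s) * b, fun x hx => ?_⟩
    rw [hl]
    show J ((ci s x : ℝ) / 2 ^ s) * ek x = _
    rw [LOB_ci s k0 x hx, hab x hx]
    ring
  have hlB : BM l := hL3 s l hlP (fun x hx => by
    rw [hl]
    show J ((ci s x : ℝ) / 2 ^ s) * ek x = 0
    rw [hekB.2.2 x hx, mul_zero])
  obtain ⟨G, hG⟩ : ∃ G : ℝ → ℝ, G = fun z => J z * k z := ⟨_, rfl⟩
  have hGB : BM G := by rw [hG]; exact LOB_mul J k (51 / 49) hJc.measurable hJa hkB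
  obtain ⟨u1, hu1⟩ : ∃ u1 : ℝ → ℝ, u1 = fun z => J z * (k z - ek z) := ⟨_, rfl⟩
  have hu1B : BM u1 := by rw [hu1]; exact LOB_mul J _ (51 / 49) hJc.measurable hJa (hL1 _ _ hkB hekB).2.1
  obtain ⟨u2, hu2⟩ : ∃ u2 : ℝ → ℝ, u2 = fun z => (G z - l z) - u1 z := ⟨_, rfl⟩
  have hu2B : BM u2 := by rw [hu2]; exact (hL1 _ _ (hL1 _ _ hGB hlB).2.1 hu1B).2.1
  have hu2e : ∀ z, u2 z = (J z - J ((ci s z : ℝ) / 2 ^ s)) * ek z := by
    intro z
    rw [hu2, hG, hl, hu1]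
    ring
  -- nsq g = ∫ f G
  have e1 : nsq g = ∫ z, f z * G z := by
    have a1 : nsq g = ∫ x, Es r (fun z => f (ev c z)) x * g x := by
      unfold nsq
      rw [← hg]
      congr 1
      funext x
      ring
    have a2 : ∫ x, Es r (fun z => f (ev c z)) x * g x = ∫ x, f (ev c x) * g x := by
      rw [hP1 r _ _ hh hgB]
      congr 1
      funext x
      rw [hA3 r g hgP x]
    have a3 := hV4 c (fun z => f z * g (ev c⁻¹ z)) hc'
    have a4 : ∫ x, f (ev c x) * g x = ∫ x, f (ev c x) * g (ev c⁻¹ (ev c x)) := by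
      congr 1
      funext x
      rw [ev_inv]
    rw [a1, a2, a4, a3, ← hJ]
    congr 1
    funext z
    rw [hG, hk]
    ring
  have e2 : ∫ z, f z * l z = 0 := by
    have a1 : ∫ z, f z * l z = ∫ z, f z * Es s l z := by
      congr 1
      funext z
      rw [hA3 s l hlP z]
    rw [a1, ← hP1 s f l hf hlB]
    simp [hEf]
  have e3 : nsq g = ∫ z, f z * (G z - l z) := by
    have a1 : (fun z => f z * (G z - l z)) = fun z => f z * G z - f z * l z := by funext z; ring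
    rw [a1, integral_sub (hL2 0 _ (hL1 _ _ hf hGB).2.2).2.2 (hL2 0 _ (hL1 _ _ hf hlB).2.2).2.2, e2, sub_zero, e1]
  have hGl : BM (fun z => G z - l z) := (hL1 _ _ hGB hlB).2.1
  have e4 : nsq g ^ 2 ≤ nsq f * nsq (fun z => G z - l z) := by
    rw [e3]
    exact hC1 f (fun z => G z - l z) hf hGl
  -- the two parts
  have hk2 : nsq k ≤ 2 * nsq g := by
    rw [hk]
    exact (hV5 c⁻¹ g hci hgB).1
  have hek2 : nsq ek ≤ 2 * nsq g := by
    have := hP2 s k hkB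
    rw [← hek] at this
    have := hn0 (fun x => k x - ek x)
    linarith
  have hkek : nsq (fun x => k x - ek x) ≤ K / 2 ^ (s - r) * nsq g := by
    have := hOA c⁻¹ g r s hci hgP hgB hrs
    rw [hek, hk]
    exact this
  have hA : nsq u1 ≤ 2 * (K / 2 ^ (s - r) * nsq g) := by
    have a1 : nsq u1 ≤ nsq (fun x => (51 / 49) * (k x - ek x)) := by
      refine hC4 _ _ hu1B (hL2 (51 / 49) _ (hL1 _ _ hkB hekB).2.1).1 (fun x => ?_)
      rw [hu1]
      show |J x * (k x - ek x)| ≤ |(51 / 49) * (k x - ek x)|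
      rw [abs_mul, abs_mul, abs_of_pos (by norm_num : (0 : ℝ) < 51 / 49)]
      exact mul_le_mul_of_nonneg_right (hJa x) (abs_nonneg _)
    rw [hC5 (51 / 49) (fun x => k x - ek x)] at a1
    have := hn0 (fun x => k x - ek x)
    nlinarith
  have hB : nsq u2 ≤ 1 / 2 ^ (s - r) * nsq g := by
    have a1 : nsq u2 ≤ nsq (fun x => (1 / 40 * (1 / 2 ^ s)) * ek x) := by
      refine hC4 _ _ hu2B (hL2 _ _ hekB).1 (fun x => ?_)
      rw [hu2e x, abs_mul, abs_mul, abs_of_pos (by positivity : (0 : ℝ) < 1 / 40 * (1 / 2 ^ s))]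
      refine mul_le_mul_of_nonneg_right ((hJl x _).trans ?_) (abs_nonneg _)
      exact mul_le_mul_of_nonneg_left (LOB_left s x) (by norm_num)
    rw [hC5] at a1
    have a2 : (1 : ℝ) / 2 ^ s ≤ 1 / 2 ^ (s - r) := one_div_le_one_div_of_le (by positivity) (pow_le_pow_right₀ (by norm_num) (Nat.sub_le s r))
    have a3 : (1 : ℝ) / 2 ^ s ≤ 1 := by
      rw [div_le_one (by positivity)]
      exact one_le_pow₀ (by norm_num)
    have a4 : (0 : ℝ) < 1 / 2 ^ s := by positivity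
    have a5 : (1 / 40 * ((1 : ℝ) / 2 ^ s)) ^ 2 ≤ 1 / 2 * (1 / 2 ^ (s - r)) := by
      have : ((1 : ℝ) / 2 ^ s) ^ 2 ≤ 1 / 2 ^ (s - r) := by nlinarith
      nlinarith
    calc nsq u2 ≤ (1 / 40 * ((1 : ℝ) / 2 ^ s)) ^ 2 * nsq ek := a1
      _ ≤ (1 / 2 * (1 / 2 ^ (s - r))) * (2 * nsq g) := mul_le_mul a5 hek2 (hn0 _) (by positivity)
      _ = _ := by ring
  have hsum : nsq (fun z => G z - l z) ≤ 2 * nsq u1 + 2 * nsq u2 := by
    have a1 : (fun z => G z - l z) = fun z => u1 z + u2 z := by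
      funext z
      rw [hu2]
      ring
    rw [a1]
    have a2 := hC2 u1 u2 hu1B hu2B
    have a3 : nsq (fun z => u1 z + u2 z) = √(nsq (fun z => u1 z + u2 z)) ^ 2 := (Real.sq_sqrt (hn0 _)).symm
    have a4 : nsq u1 = √(nsq u1) ^ 2 := (Real.sq_sqrt (hn0 _)).symm
    have a5 : nsq u2 = √(nsq u2) ^ 2 := (Real.sq_sqrt (hn0 _)).symm
    have a6 : √(nsq (fun z => u1 z + u2 z)) ^ 2 ≤ (√(nsq u1) + √(nsq u2)) ^ 2 := pow_le_pow_left₀ (Real.sqrt_nonneg _) a2 2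
    rw [a3]
    nlinarith [sq_nonneg (√(nsq u1) - √(nsq u2))]
  have hfin : nsq g ^ 2 ≤ nsq f * ((4 * K + 2) / 2 ^ (s - r) * nsq g) := by
    refine e4.trans (mul_le_mul_of_nonneg_left ?_ (hn0 _))
    have : (4 * K + 2) / 2 ^ (s - r) * nsq g = 2 * (2 * (K / 2 ^ (s - r) * nsq g)) + 2 * (1 / 2 ^ (s - r) * nsq g) := by ring
    rw [this]
    linarith
  rcases (hn0 g).eq_or_lt with h0 | h0
  · rw [← h0]
    have := hn0 f
    positivity
  · have : nsq g * nsq g ≤ ((4 * K + 2) / 2 ^ (s - r) * nsq f) * nsq g := by nlinarith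
    exact le_of_mul_le_mul_right this h0

end Pool.Agent.helper90.DH
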