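import Pool.Agent.helper48.DH.SpecY

/-!
# Row yMOB of project d2: antiderivatives of the mollification (Fubini) (helper51)
-/

set_option autoImplicit false

open Filter Topology MeasureTheory
open scoped commutatorElement

namespace Pool.Agent.helper90.DH

open Pool.Agent.helper64.D2

/-- bounded measurable functions are interval integrable. -/
theorem yMOB_int (v : ℝ → ℝ) (hv : BM v) (a b : ℝ) : IntervalIntegrable v volume a b := by
  obtain ⟨h1, ⟨B, hB⟩, -⟩ := hv
  rw [intervalIntegrable_iff]
  exact Measure.integrableOn_of_bounded (M := B) (by simp [Set.uIoc]) h1.aestronglyMeasurable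
    (Filter.Eventually.of_forall (fun x => by rw [Real.norm_eq_abs]; exact hB x))

/-- the kernel is integrable. -/
theorem yMOB_ker (κ : ℝ → ℝ) (hκ : KER κ) : Integrable κ := by
  obtain ⟨h1, -, -, h4, -⟩ := hκ
  refine h1.continuous.integrable_of_hasCompactSupport ?_
  refine HasCompactSupport.intro (isCompact_Icc (a := (-1 : ℝ)) (b := 1)) (fun x hx => h4 x hx)

/-- Fubini with a continuous weight. -/
theorem yMOB_swap (κ : ℝ → ℝ) (hκ : KER κ) (v : ℝ → ℝ) (hv : BM v) (h : ℝ) (c : ℝ → ℝ) (hc : Continuous c) (x : ℝ) :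
    ∫ z in (0 : ℝ)..x, c z * mol κ h v z = ∫ t, κ t * ∫ z in (0 : ℝ)..x, c z * v (z - h * t) := by
  have hκi := yMOB_ker κ hκ
  have hκm : Measurable κ := hκ.1.continuous.measurable
  obtain ⟨hvm, ⟨B, hB⟩, hv0⟩ := hv
  have hB0 : 0 ≤ B := (abs_nonneg _).trans (hB 0)
  have e1 : ∀ z, c z * mol κ h v z = ∫ t, c z * (κ t * v (z - h * t)) := by
    intro z
    unfold mol
    rw [integral_const_mul]
  have e2 : ∀ t, κ t * ∫ z in (0 : ℝ)..x, c z * v (z - h * t) = ∫ z in (0 : ℝ)..x, c z * (κ t * v (z - h * t)) := by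
    intro t
    rw [← intervalIntegral.integral_const_mul]
    congr 1
    funext z
    ring
  simp_rw [e1, e2]
  refine intervalIntegral_integral_swap ?_
  have hci : Integrable c (volume.restrict (Set.uIoc 0 x)) := by
    have := (hc.intervalIntegrable (μ := volume) 0 x)
    rw [intervalIntegrable_iff] at this
    exact this
  have hdom := (hci.norm.mul_const B).mul_prod hκi.norm
  refine hdom.mono' ?_ ?_
  · have hm : Measurable (Function.uncurry fun (z t : ℝ) => c z * (κ t * v (z - h * t))) := by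
      have h1 : Measurable (fun p : ℝ × ℝ => c p.1) := hc.measurable.comp measurable_fst
      have h2 : Measurable (fun p : ℝ × ℝ => κ p.2) := hκm.comp measurable_snd
      have h3 : Measurable (fun p : ℝ × ℝ => v (p.1 - h * p.2)) := hvm.comp (measurable_fst.sub (measurable_const.mul measurable_snd))
      exact h1.mul (h2.mul h3)
    exact hm.aestronglyMeasurable
  · refine Filter.Eventually.of_forall (fun p => ?_)
    show ‖c p.1 * (κ p.2 * v (p.1 - h * p.2))‖ ≤ ‖c p.1‖ * B * ‖κ p.2‖
    rw [norm_mul, norm_mul]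
    have h1 : ‖v (p.1 - h * p.2)‖ ≤ B := by rw [Real.norm_eq_abs]; exact hB _
    calc ‖c p.1‖ * (‖κ p.2‖ * ‖v (p.1 - h * p.2)‖) ≤ ‖c p.1‖ * (‖κ p.2‖ * B) := by gcongr
      _ = _ := by ring

/-- shifting the integral. -/
theorem yMOB_shift (v : ℝ → ℝ) (hv : BM v) (h : ℝ) (h0 : 0 < h) (hvh : ∀ x ≤ h, v x = 0) (c : ℝ → ℝ) (hc : Continuous c) (x t : ℝ) (ht : t ∈ Set.Icc (-1 : ℝ) 1) :
    ∫ z in (0 : ℝ)..x, c (z - h * t) * v (z - h * t) = ∫ z in (0 : ℝ)..(x - h * t), c z * v z := by
  rw [intervalIntegral.integral_comp_sub_right (fun z => c z * v z) (h * t)]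
  have hi : ∀ a b : ℝ, IntervalIntegrable (fun z => c z * v z) volume a b := fun a b =>
    (yMOB_int v hv a b).continuousOn_mul hc.continuousOn
  rw [← intervalIntegral.integral_add_adjacent_intervals (hi (0 - h * t) 0) (hi 0 (x - h * t))]
  have hz : ∫ z in (0 - h * t)..0, c z * v z = 0 := by
    have : ∫ z in (0 - h * t)..0, c z * v z = ∫ z in (0 - h * t)..0, (0 : ℝ) := by
      refine intervalIntegral.integral_congr (fun z hz => ?_)
      have h1 : z ≤ h := by
        have h2 : z ≤ max (0 - h * t) 0 := hz.2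
        refine h2.trans (max_le ?_ h0.le)
        nlinarith [ht.1]
      show c z * v z = 0
      rw [hvh z h1, mul_zero]
    rw [this]
    simp
  rw [hz, zero_add]

/-- the row yMOB. -/
theorem yMOB : yMOB_stmt := by
  intro κ hκ v h hv h0 hvh x
  constructor
  · have h1 := yMOB_swap κ hκ v hv h (fun _ => 1) continuous_const x
    simp only [one_mul] at h1
    rw [h1]
    congr 1
    funext t
    by_cases ht : t ∈ Set.Icc (-1 : ℝ) 1
    · have h2 := yMOB_shift v hv h h0 hvh (fun _ => 1) continuous_const x t ht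
      simp only [one_mul] at h2
      rw [h2]
    · rw [hκ.2.2.2.1 t ht, zero_mul, zero_mul]
  · unfold A2
    rw [yMOB_swap κ hκ v hv h (fun z => x - z) (by fun_prop) x]
    congr 1
    funext t
    by_cases ht : t ∈ Set.Icc (-1 : ℝ) 1
    · have h2 := yMOB_shift v hv h h0 hvh (fun z => (x - h * t) - z) (by fun_prop) x t ht
      rw [← h2]
      congr 2
      funext z
      ring
    · rw [hκ.2.2.2.1 t ht, zero_mul, zero_mul]

end Pool.Agent.helper90.DH
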