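import Pool.Agent.helper5.DH.Spec
import Pool.Agent.helper62.EX.ITR
import Pool.Agent.helper73.EX.NULm

set_option autoImplicit false

open Complex Metric Set Filter Topology MeasureTheory
open Pool.Agent.helper98.ILF Pool.Agent.helper16.Multibrot
open HY (UD T S hd UN RM VV SG Orb fz)

noncomputable section

namespace DH

theorem NLI (hKO0 : V3.KO0_stmt) : NLI_stmt := by
  intro n c μ hn hμ hinv m X hX hXi
  have hitr := EX.ITR EX.NUL n c μ (by omega) hinv m
  have hnul : volume {z : ℂ | z ∈ UD ∧ X z ∈ {z : ℂ | ¬ (μ ((EX.ff n c)^[m] z) *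
      (starRingEnd ℂ) (deriv ((EX.ff n c)^[m]) z) / deriv ((EX.ff n c)^[m]) z = μ z)}} = 0 := by
    apply EX.NUL X UD _ isOpen_ball hX
    · intro z hz
      exact hKO0 X UD isOpen_ball hX hXi z hz
    · exact hitr
  have hae : ∀ᵐ y : ℂ, ¬ (y ∈ UD ∧ X y ∈ {z : ℂ | ¬ (μ ((EX.ff n c)^[m] z) *
      (starRingEnd ℂ) (deriv ((EX.ff n c)^[m]) z) / deriv ((EX.ff n c)^[m]) z = μ z)}) := by
    rw [ae_iff]
    simpa using hnul
  filter_upwards [hae] with y hy hyU
  have h1 : μ ((fz n c)^[m] (X y)) * (starRingEnd ℂ) (deriv ((fz n c)^[m]) (X y)) /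
      deriv ((fz n c)^[m]) (X y) = μ (X y) := by
    by_contra hcon
    exact hy ⟨hyU, hcon⟩
  have hdiff : Differentiable ℂ ((fz n c)^[m]) := by
    apply Differentiable.iterate
    unfold HY.fz
    fun_prop
  have hXd : DifferentiableAt ℂ X y := (hX y hyU).differentiableAt (isOpen_ball.mem_nhds hyU)
  have h2 : deriv (fun x => (fz n c)^[m] (X x)) y = deriv ((fz n c)^[m]) (X y) * deriv X y := by
    have := deriv_comp y (hdiff (X y)) hXd
    simpa [Function.comp_def] using this
  rw [h2, ← h1, map_mul]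
  rw [← mul_assoc, mul_div_mul_comm, mul_div_assoc]

end DH
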