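import Pool.Agent.helper18.DH.SpecM

/-!
# Row MMBD of project dh: existence and sizes (helper51)
-/

set_option autoImplicit false

open Filter Topology MeasureTheory
open scoped commutatorElement

namespace Pool.Agent.helper90.DH

open Pool.Agent.helper64.D2

/-- sizes are monotone. -/
theorem MBD_mono (g : DD) (a b : ℝ) (h : Sz g a) (hab : a ≤ b) : Sz g b := fun x => (h x).trans hab

/-- the row MBD. -/
theorem MBD (hEXI : EXI_stmt) (hSZR : SZR_stmt) : MBD_stmt := by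
  obtain ⟨K, hK, hS⟩ := hSZR
  refine ⟨4 * K, by linarith, ?_⟩
  intro q Y G ε d L γ hq hF hε hγ hKε hG
  have hqγ : 0 ≤ (q : ℝ) * γ := mul_nonneg (Nat.cast_nonneg _) hγ
  have hs0 : 0 ≤ ε + q * γ := by linarith
  have h1 : K * (ε + q * γ) ≤ 1 := by nlinarith
  have h2 : ε ≤ 1 / 4 := by nlinarith
  obtain ⟨Q, R, hQ, hR⟩ := hEXI q Y G ε d L hq hF hε h2
  obtain ⟨h3, h4⟩ := hS q Y G Q R ε d L γ hq hF hε hγ h1 hG hQ hR
  have hm1 : K * (ε + q * γ) ≤ 4 * K * (ε + q * γ) := by nlinarith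
  have hm2 : K * ε ≤ 4 * K * ε := by nlinarith
  refine ⟨Q, R, hQ, hR, ?_, ?_⟩
  · intro i hi
    exact ⟨(h3 i hi).1, MBD_mono _ _ _ (h3 i hi).2 hm1⟩
  · intro i hi
    obtain ⟨k1, k2, k3⟩ := h4 i hi
    exact ⟨MBD_mono _ _ _ k1 hm2, MBD_mono _ _ _ k2 hm1, MBD_mono _ _ _ k3 hm1⟩

end Pool.Agent.helper90.DH
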